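import Pool.Agent.J6H39.IC.Fin2

/-!
# Increments of the Mertens function, the weak Mertens hypothesis and the negative moment `J_{-1}`

For `κ > 0` let `incr κ X = ∫_1^X ((M((1+κ)u) - M(u))/u)² du` be the mean square of the increments of the Mertens
function on the multiplicative scale `κ`.

* Unconditionally `incr κ X / log X` has a limit in `[0, ∞]` as `X → ∞`; it is finite (for one, equivalently for all
  `κ > 0`) exactly when the weak Mertens hypothesis holds, and then it is `∑_ρ |(1+κ)^ρ - 1|² / |ρ ζ'(ρ)|²`.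
* The hypotheses of Ng's theorem (the Riemann Hypothesis, simple zeros, `J_{-1}(T) ≪ T`) hold if and only if
  this limit is `O(κ)` for `0 < κ ≤ 1`; more generally `J_{-1}(T) ≪ T^{2-δ}` corresponds to `O(κ^δ)`.
* The Riemann Hypothesis, simple zeros and `J_{-1}(T) ∼ A T` hold if and only if this limit is `∼ 2 π A κ` as
  `κ → 0`. For `A = 3/π³` (Gonek's conjecture) the constant is `6/π²`, the density of the squarefree numbers.
-/

set_option autoImplicit false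

open Filter Topology MeasureTheory

namespace Pool.Agent.Results.MP_323ce2_nt.IncrementsAndNegativeMoment

/-- The Mertens function `M(x) = ∑_{1 ≤ n ≤ x} μ(n)`. -/
noncomputable def M (x : ℝ) : ℝ := ∑ n ∈ Finset.Icc 1 ⌊x⌋₊, ((ArithmeticFunction.moebius n : ℤ) : ℝ)

/-- The weak Mertens hypothesis: `∫_1^x (M(u)/u)² du ≤ C log x` for all `x ≥ 2`, for some `C`. -/
def WeakMertens : Prop := ∃ C : ℝ, ∀ x : ℝ, 2 ≤ x → ∫ u in (1 : ℝ)..x, (M u / u) ^ 2 ≤ C * Real.log x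

/-- The mean square of the increments, `∫_1^X ((M((1+κ)u) - M(u))/u)² du`. -/
noncomputable def incr (κ X : ℝ) : ℝ := ∫ u in (1 : ℝ)..X, ((M ((1 + κ) * u) - M u) / u) ^ 2

/-- The nontrivial zeros of the Riemann zeta function. -/
def NT : Set ℂ := {s : ℂ | riemannZeta s = 0 ∧ 0 < s.re ∧ s.re < 1}

/-- The Riemann Hypothesis and the simplicity of all nontrivial zeros. -/
def RHSimple : Prop := ∀ ρ ∈ NT, ρ.re = 1 / 2 ∧ deriv riemannZeta ρ ≠ 0

/-- The nontrivial zeros with ordinate in `(0, T]`. -/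
def Z (T : ℝ) : Set ℂ := {ρ : ℂ | riemannZeta ρ = 0 ∧ 0 < ρ.re ∧ ρ.re < 1 ∧ 0 < ρ.im ∧ ρ.im ≤ T}

/-- The negative moment `J_{-1}(T) = ∑_{0 < γ ≤ T} 1/|ζ'(ρ)|²`. -/
noncomputable def J (T : ℝ) : ℝ := ∑ᶠ ρ ∈ Z T, 1 / ‖deriv riemannZeta ρ‖ ^ 2

/-- **Theorem.** (0) `Z T` is finite, so that `J T` is a finite sum.
(1) Under the weak Mertens hypothesis `incr κ X / log X → ∑_ρ |(1+κ)^ρ - 1|²/|ρ ζ'(ρ)|²` for every `κ > 0`,
and the series converges; if the hypothesis fails then `incr κ X / log X → ∞` for every `κ > 0`.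
(2) For `δ > 0`: the Riemann Hypothesis, simple zeros and `J(T) ≤ C T^{2-δ}` hold if and only if
`incr κ X ≤ C κ^δ log X` for each `0 < κ ≤ 1` and all large `X`, with `C` independent of `κ`.
(3) For every real `A`: the Riemann Hypothesis, simple zeros and `J(T) ∼ A T` hold if and only if
`incr κ X / (κ log X)` tends to `2 π A` when first `X → ∞` and then `κ → 0`. -/
theorem result :
    (∀ T : ℝ, (Z T).Finite) ∧
    (∀ κ : ℝ, 0 < κ →
      (WeakMertens →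
        Summable (fun ρ : NT =>
          ‖((1 + κ : ℝ) : ℂ) ^ (ρ : ℂ) - 1‖ ^ 2 / ‖(ρ : ℂ) * deriv riemannZeta ρ‖ ^ 2) ∧
        Tendsto (fun X : ℝ => incr κ X / Real.log X) atTop
          (𝓝 (∑' ρ : NT, ‖((1 + κ : ℝ) : ℂ) ^ (ρ : ℂ) - 1‖ ^ 2 / ‖(ρ : ℂ) * deriv riemannZeta ρ‖ ^ 2))) ∧
      (¬ WeakMertens → Tendsto (fun X : ℝ => incr κ X / Real.log X) atTop atTop)) ∧
    (∀ δ : ℝ, 0 < δ →
      ((RHSimple ∧ ∃ C : ℝ, ∀ T : ℝ, 1 ≤ T → J T ≤ C * T ^ (2 - δ)) ↔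
        ∃ C : ℝ, ∀ κ : ℝ, 0 < κ → κ ≤ 1 → ∀ᶠ X : ℝ in atTop, incr κ X ≤ C * κ ^ δ * Real.log X)) ∧
    (∀ A : ℝ,
      ((RHSimple ∧ Tendsto (fun T : ℝ => J T / T) atTop (𝓝 A)) ↔
        ∀ ε : ℝ, 0 < ε → ∃ κ₀ : ℝ, 0 < κ₀ ∧ ∀ κ : ℝ, 0 < κ → κ < κ₀ → ∀ᶠ X : ℝ in atTop,
          |incr κ X / (κ * Real.log X) - 2 * Real.pi * A| ≤ ε)) := by
  have hW : WeakMertens ↔ Pool.Agent.J6H39.ML.ZC := Pool.Agent.J6H39.ML.weak_iff
  refine ⟨Pool.Agent.J6H39.IC.Z_fin, fun κ hκ => ⟨fun h => ?_, fun h => ?_⟩, fun δ hδ => ?_, fun A => ?_⟩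
  · exact ⟨Pool.Agent.J6H39.IC.V0_summable (hW.1 h) hκ, Pool.Agent.J6H39.IC.D_lim (hW.1 h) hκ⟩
  · exact Pool.Agent.J6H39.IC.D_top (fun h' => h (hW.2 h')) hκ
  · exact Pool.Agent.J6H39.IC.pow_iff hδ
  · exact Pool.Agent.J6H39.IC.asym_iff A

end Pool.Agent.Results.MP_323ce2_nt.IncrementsAndNegativeMoment
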