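import Pool.Agent.J6H91.WMD.C

/-!
# The weak Mertens hypothesis, almost periodicity and the limiting distribution of `M(x) / √x`

Let `M(x) = ∑_{n ≤ x} μ(n)`, `f(x) = M(x) / √x`, `I(x) = ∫_1^x (M(u)/u)² du`, and denote by
`mean g = (1 / log X) ∫_1^X g(x) dx / x` the logarithmic means.  The weak Mertens hypothesis is
`I(x) ≪ log x`.  Unconditionally:

1. The following are equivalent: (a) the weak Mertens hypothesis; (b) `I(x) ≤ C log x` for arbitrarily large
   `x` (as sparse as one likes); (c) `f` is almost periodic in the sense of Besicovitch: for every `ε > 0` there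
   is a trigonometric polynomial `P(x) = ∑ a_l x^{i l}` with `mean |f - P|² ≤ ε` for all large `X`; (d) `f` has a
   limiting distribution: a probability measure `μ` on `ℝ` with `mean φ(f(x)) → ∫ φ dμ` for all continuous
   functions `φ` of at most quadratic growth.
2. If they hold, then the Riemann Hypothesis is true and the zeros are simple, the Fourier series of `f` is
   `∑_ρ x^{ρ - 1/2} / (ρ ζ'(ρ))`, more precisely the mean square distance of `f` to every finite partial sum is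
   asymptotically the sum of `1 / |ρ ζ'(ρ)|²` over the other zeros; the limiting distribution is unique, has
   mean `0` and variance `∑_ρ 1 / |ρ ζ'(ρ)|² > 0`; and there is `c > 0` such that the set of the `x` with
   `M(x) > c √x` and the set of the `x` with `M(x) < - c √x` have positive lower logarithmic densities.
3. If they fail then `I(x) / log x → ∞`.

So either `I(x) / log x → ∞`, or `M(x) / √x` is Besicovitch almost periodic with a limiting distribution.
Under stronger hypotheses (the Riemann Hypothesis and upper bounds for `J_{-1}(T) = ∑ 1/|ζ'(ρ)|²`) the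
limiting distribution was constructed by Ng.

The proof combines the criterion `ZeroCondition` of the file `WeakMertensIffZeroCondition` of this problem
(the asymptotics of the mean square from the convergence of `∑ 1 / |ρ ζ'(ρ)|²`) with Bessel's identity for
the partial sums and the general facts on almost periodic functions in `Pool.Agent.TH223.AP`.
-/

set_option autoImplicit false

open MeasureTheory Filter Topology

namespace Pool.Agent.Results.MP_323ce2_nt.LimitingDistribution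

/-- The Mertens function. -/
noncomputable def mertens (x : ℝ) : ℝ :=
  ∑ n ∈ Finset.Icc 1 ⌊x⌋₊, ((ArithmeticFunction.moebius n : ℤ) : ℝ)

/-- `f(x) = M(x) / √x`. -/
noncomputable def f (x : ℝ) : ℝ := mertens x / Real.sqrt x

/-- `I(x) = ∫_1^x (M(u)/u)² du`. -/
noncomputable def I (x : ℝ) : ℝ := ∫ u in (1 : ℝ)..x, (mertens u / u) ^ 2

/-- The logarithmic mean `(1 / log X) ∫_1^X g(x) dx / x`. -/
noncomputable def logMean (g : ℝ → ℝ) (X : ℝ) : ℝ := (∫ x in (1 : ℝ)..X, g x / x) / Real.log X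

/-- The weak Mertens hypothesis. -/
def WeakMertens : Prop := ∃ C : ℝ, ∀ x : ℝ, 2 ≤ x → I x ≤ C * Real.log x

/-- Almost periodicity in the sense of Besicovitch, in the variable `log x`: for every `ε > 0` there is a
trigonometric polynomial `P(x) = ∑_{l ∈ K} a_l x^{i l}` with real frequencies such that the logarithmic mean
of `|g - P|²` is at most `ε` for all large `X`. -/
def AlmostPeriodic (g : ℝ → ℝ) : Prop := ∀ ε : ℝ, 0 < ε → ∃ (K : Finset ℝ) (a : ℝ → ℂ),
  ∀ᶠ X : ℝ in atTop,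
    logMean (fun x => ‖(g x : ℂ) - ∑ l ∈ K, a l * (x : ℂ) ^ (Complex.I * l)‖ ^ 2) X ≤ ε

/-- `μ` is the limiting distribution of `g`: for every continuous function `φ` of at most quadratic growth
`φ` is integrable with respect to `μ` and the logarithmic means of `φ(g(x))` tend to `∫ φ dμ`. -/
def HasLimitLaw (g : ℝ → ℝ) (μ : ProbabilityMeasure ℝ) : Prop :=
  ∀ φ : ℝ → ℝ, Continuous φ → (∃ C : ℝ, ∀ t, |φ t| ≤ C * (1 + t ^ 2)) →
    Integrable φ (μ : Measure ℝ) ∧
      Tendsto (logMean fun x => φ (g x)) atTop (𝓝 (∫ t, φ t ∂(μ : Measure ℝ)))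

/-- The nontrivial zeros of the Riemann zeta function. -/
def NT : Set ℂ := {s : ℂ | riemannZeta s = 0 ∧ 0 < s.re ∧ s.re < 1}

/-- `1 / |ρ ζ'(ρ)|²`. -/
noncomputable def weight (ρ : NT) : ℝ := 1 / ‖(ρ : ℂ) * deriv riemannZeta ρ‖ ^ 2

theorem result :
    List.TFAE [WeakMertens,
      ∃ C : ℝ, ∃ᶠ x : ℝ in atTop, I x ≤ C * Real.log x,
      AlmostPeriodic f,
      ∃ μ : ProbabilityMeasure ℝ, HasLimitLaw f μ] ∧
    (WeakMertens →
      (∀ ρ ∈ NT, ρ.re = 1 / 2 ∧ deriv riemannZeta ρ ≠ 0) ∧ Summable weight ∧ 0 < ∑' ρ, weight ρ ∧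
      (∀ Z : Finset NT, Tendsto (logMean fun x => ‖(f x : ℂ) -
        ∑ ρ ∈ Z, (x : ℂ) ^ ((ρ : ℂ) - 1 / 2) / ((ρ : ℂ) * deriv riemannZeta ρ)‖ ^ 2) atTop
          (𝓝 (∑' ρ, weight ρ - ∑ ρ ∈ Z, weight ρ))) ∧
      (∃! μ : ProbabilityMeasure ℝ, HasLimitLaw f μ) ∧
      (∀ μ : ProbabilityMeasure ℝ, HasLimitLaw f μ →
        ∫ t, t ∂(μ : Measure ℝ) = 0 ∧ ∫ t, t ^ 2 ∂(μ : Measure ℝ) = ∑' ρ, weight ρ) ∧
      (∀ s : ℝ, s = 1 ∨ s = -1 → ∃ c η : ℝ, 0 < c ∧ 0 < η ∧ ∀ᶠ X : ℝ in atTop,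
        η ≤ logMean ({x : ℝ | c * Real.sqrt x < s * mertens x}.indicator fun _ => 1) X)) ∧
    (¬ WeakMertens → Tendsto (fun x : ℝ => I x / Real.log x) atTop atTop) := by
  have hwm : WeakMertens ↔ Pool.Agent.J6H39.ML.ZC := Pool.Agent.J6H39.ML.weak_iff
  refine ⟨?_, fun h => ?_, fun h => ?_⟩
  · tfae_have 1 → 2 := fun ⟨C, hC⟩ => ⟨C, Eventually.frequently (by
      filter_upwards [eventually_ge_atTop 2] with x hx
      exact hC x hx)⟩
    tfae_have 2 → 1 := fun ⟨C, hC⟩ => hwm.2 (Pool.Agent.J6H39.ML.ZC_of_freq one_pos le_rfl (C := C) (by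
      refine hC.mono fun x hx => ?_
      rw [sub_self, Real.rpow_zero]
      exact hx))
    tfae_have 1 → 3 := fun h => Pool.Agent.J6H91.WMD.bap_iff.2 (Pool.Agent.J6H91.WMD.b2 (hwm.1 h))
    tfae_have 3 → 1 := fun h => hwm.2 (Pool.Agent.J6H91.WMD.zc_of_b2 (Pool.Agent.J6H91.WMD.bap_iff.1 h))
    tfae_have 1 → 4 := fun h => by
      obtain ⟨μ, hμ⟩ := Pool.Agent.J6H91.WMD.lim_of_zc (hwm.1 h)
      exact ⟨μ, Pool.Agent.J6H91.WMD.limX_iff.2 hμ⟩
    tfae_have 4 → 1 := fun ⟨μ, hμ⟩ =>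
      hwm.2 (Pool.Agent.J6H91.WMD.zc_of_lim (Pool.Agent.J6H91.WMD.limX_iff.1 hμ))
    tfae_finish
  · have hz := hwm.1 h
    obtain ⟨μ, hμ⟩ := Pool.Agent.J6H91.WMD.lim_of_zc hz
    have hμ' := Pool.Agent.J6H91.WMD.limX_iff.2 hμ
    refine ⟨hz.1, hz.2, Pool.Agent.J6H91.WMD.SS_pos hz, fun Z => Pool.Agent.J6H91.WMD.partial_x hz Z,
      ⟨μ, hμ', fun ν hν => Pool.Agent.J6H91.WMD.lim_unique hν hμ'⟩, fun ν hν => ?_, fun s hs => ?_⟩
    · obtain ⟨h1, h2, -⟩ := Pool.Agent.J6H91.WMD.moments_x hz hν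
      exact ⟨h1, h2⟩
    · obtain ⟨c, η, hc, hη, h1⟩ := Pool.Agent.J6H91.WMD.density_x hz hs
      refine ⟨c, η, hc, hη, ?_⟩
      filter_upwards [h1, eventually_ge_atTop 1] with X h2 hX
      refine h2.trans (le_of_eq ?_)
      rw [Pool.Agent.J6H91.WMD.logMean_eq _ hX]
      show _ = (∫ x in (1 : ℝ)..X, _ / x) / Real.log X
      rw [Pool.Agent.J6H91.WMD.cov _ hX]
      unfold Pool.Agent.TH223.AP.mn
      congr 1
      congr 1
      funext v
      have he : (Real.exp v ∈ {x : ℝ | c < s * Pool.Agent.J6H91.WMD.fx x}) ↔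
          Real.exp v ∈ {x : ℝ | c * Real.sqrt x < s * mertens x} := by
        have h3 : 0 < Real.sqrt (Real.exp v) := Real.sqrt_pos.2 (Real.exp_pos v)
        show c < s * (mertens (Real.exp v) / Real.sqrt (Real.exp v)) ↔ _
        rw [mul_div_assoc', lt_div_iff₀ h3]
        rfl
      beta_reduce
      by_cases hv : Real.exp v ∈ {x : ℝ | c < s * Pool.Agent.J6H91.WMD.fx x}
      · rw [Set.indicator_of_mem hv, Set.indicator_of_mem (he.1 hv)]
      · rw [Set.indicator_of_notMem hv, Set.indicator_of_notMem fun h4 => hv (he.2 h4)]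
  · have h1 := Pool.Agent.J6H39.ML.window_top (fun hz => h (hwm.2 hz)) one_pos le_rfl
    refine h1.congr fun x => ?_
    rw [sub_self, Real.rpow_zero]
    rfl

end Pool.Agent.Results.MP_323ce2_nt.LimitingDistribution
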