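import Pool.Agent.W120.WM.All1

/-!
# A weak Mertens bound on a sparse set forces `I(x) = o((log x)²)` for all `x`

Let `M(u) = ∑_{n ≤ u} μ(n)` and `I(x) = ∫_1^x (M(u)/u)² du`.  The question (Q1) is whether `I(x) ≪ log x`.
We prove, with an absolute constant `K`: if for some `0 < δ ≤ 1` and some `C` the inequality

`∫_{x^{1-δ}}^x (M(u)/u)² du ≤ C log x`

holds for an unbounded set of real `x` (as sparse as one likes; `δ = 1` is `I(x) ≤ C log x`), then for ALL
`x ≥ 2` one has `∫_x^{2x} (M(u)/u)² du ≤ K (1 + C / δ) log x`, and moreover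
`∫_x^{2x} (M(u)/u)² du = o(log x)` and `I(x) = o((log x)²)` as `x → ∞`.

So there is an unconditional alternative: either `I(x) / log x → ∞`, or `I(x) / (log x)² → 0`.
-/

set_option autoImplicit false

open Filter Topology MeasureTheory

namespace Pool.Agent.Results.MP_323ce2_nt.SparseBoundForcesLogSq

/-- `∫_a^b (M(u)/u)² du`, where `M(u) = ∑_{1 ≤ n ≤ u} μ(n)` is the Mertens function. -/
noncomputable def meanSq (a b : ℝ) : ℝ :=
  ∫ u in a..b, ((∑ n ∈ Finset.Icc 1 ⌊u⌋₊, ((ArithmeticFunction.moebius n : ℤ) : ℝ)) / u) ^ 2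

/-- A weak Mertens bound on an unbounded set of `x` controls the mean square of the Mertens function at all
scales. -/
theorem result : ∃ K : ℝ, ∀ δ C : ℝ, 0 < δ → δ ≤ 1 →
    (∃ᶠ x : ℝ in atTop, meanSq (x ^ (1 - δ)) x ≤ C * Real.log x) →
    (∀ x : ℝ, 2 ≤ x → meanSq x (2 * x) ≤ K * (1 + C / δ) * Real.log x) ∧
    Tendsto (fun x : ℝ => meanSq x (2 * x) / Real.log x) atTop (𝓝 0) ∧
    Tendsto (fun x : ℝ => meanSq 1 x / Real.log x ^ 2) atTop (𝓝 0) :=
  Pool.Agent.W120.WM.final Pool.Agent.W120.WM.mainT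

end Pool.Agent.Results.MP_323ce2_nt.SparseBoundForcesLogSq
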