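import Pool.Agent.J6H39.ML.Main

/-!
# The weak Mertens hypothesis is equivalent to a condition on the zeros

Let `M(u) = ∑_{n ≤ u} μ(n)` and `I(x) = ∫_1^x (M(u)/u)² du`.  Titchmarsh proved that `I(x) ≪ log x` implies the
Riemann Hypothesis, the simplicity of the zeros and the convergence of `∑_ρ 1/|ρ ζ'(ρ)|²`.  We prove the converse:
these three properties of the zeros together are equivalent to `I(x) ≪ log x`, and they imply

`I(x) ∼ log x · ∑_ρ 1/|ρ ζ'(ρ)|²`,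

with no hypothesis on the growth of `J_{-1}(T) = ∑_{0<γ≤T} 1/|ζ'(ρ)|²`.  If one of the three fails then
`I(x) / log x → ∞`.  So, unconditionally, `I(x) / log x` has a limit in `(0, ∞]`; the same holds on every window
`[x^{1-δ}, x]`.
-/

set_option autoImplicit false

open Filter Topology MeasureTheory

namespace Pool.Agent.Results.MP_323ce2_nt.WeakMertensIffZeroCondition

/-- `∫_a^b (M(u)/u)² du`, where `M(u) = ∑_{1 ≤ n ≤ u} μ(n)` is the Mertens function; `meanSq 1 x` is `I(x)`. -/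
noncomputable def meanSq (a b : ℝ) : ℝ :=
  ∫ u in a..b, ((∑ n ∈ Finset.Icc 1 ⌊u⌋₊, ((ArithmeticFunction.moebius n : ℤ) : ℝ)) / u) ^ 2

/-- The nontrivial zeros of the Riemann zeta function. -/
def NT : Set ℂ := {s : ℂ | riemannZeta s = 0 ∧ 0 < s.re ∧ s.re < 1}

/-- The Riemann Hypothesis, the simplicity of all nontrivial zeros, and the convergence of
`∑_ρ 1/|ρ ζ'(ρ)|²`. -/
def ZeroCondition : Prop :=
  (∀ ρ ∈ NT, ρ.re = 1 / 2 ∧ deriv riemannZeta ρ ≠ 0) ∧
    Summable (fun ρ : NT => 1 / ‖(ρ : ℂ) * deriv riemannZeta ρ‖ ^ 2)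

/-- **Theorem.** (1) `I(x) ≪ log x` holds if and only if the condition on the zeros holds.
(2) If the condition on the zeros holds, then `I(x)/log x` tends to `∑_ρ 1/|ρ ζ'(ρ)|²`; more generally the
integral over `[x^{1-δ}, x]`, divided by `log x`, tends to `δ ∑_ρ 1/|ρ ζ'(ρ)|²`, for `0 < δ ≤ 1`.
(3) If it fails, then all these ratios tend to infinity. -/
theorem result :
    ((∃ C : ℝ, ∀ x : ℝ, 2 ≤ x → meanSq 1 x ≤ C * Real.log x) ↔ ZeroCondition) ∧
    (ZeroCondition → ∀ δ : ℝ, 0 < δ → δ ≤ 1 →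
      Tendsto (fun x : ℝ => meanSq (x ^ (1 - δ)) x / Real.log x) atTop
        (𝓝 (δ * ∑' ρ : NT, 1 / ‖(ρ : ℂ) * deriv riemannZeta ρ‖ ^ 2))) ∧
    (¬ ZeroCondition → ∀ δ : ℝ, 0 < δ → δ ≤ 1 →
      Tendsto (fun x : ℝ => meanSq (x ^ (1 - δ)) x / Real.log x) atTop atTop) :=
  ⟨Pool.Agent.J6H39.ML.weak_iff, fun h _ hδ hδ1 => Pool.Agent.J6H39.ML.window_lim h hδ hδ1,
    fun h _ hδ hδ1 => Pool.Agent.J6H39.ML.window_top h hδ hδ1⟩

end Pool.Agent.Results.MP_323ce2_nt.WeakMertensIffZeroCondition
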